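import Pool.Agent.Work.MP_db9399_all.Interface

/-!
# Common lemmas for the dense phase: weights, positions, packages with one event
-/

set_option autoImplicit false

namespace Pool.Agent.Work.MP_db9399_all

open Finset Classical

universe u v

namespace DAux

section weights
variable {V : Type u} [Fintype V] (X : DCtx V)

theorem ex_nonneg (j : V) (s : Fin (X.Δ + 1)) : 0 ≤ X.ex j s :=
  Finset.sum_nonneg fun _ _ => Nat.cast_nonneg _

theorem T_nonneg (j : V) (s : Fin (X.Δ + 1)) : 0 ≤ X.T j s := by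
  unfold DCtx.T
  have := ex_nonneg X j s
  positivity

theorem ex_le (j : V) (s : Fin (X.Δ + 1)) : X.ex j s ≤ 4 / 10 ^ 6 * X.Δ := by
  unfold DCtx.ex
  have h1 : ∀ z ∈ (bs X.blk j).filter (fun z => X.idx z = s),
      ((nb X.G z \ bs X.blk j).card : ℝ) ≤ 2 * (1 / 10 ^ 6) * X.Δ := by
    intro z hz
    exact X.dec.ext j z (Finset.mem_filter.1 hz).1
  refine (Finset.sum_le_sum h1).trans ?_
  rw [Finset.sum_const, nsmul_eq_mul]
  have h2 : ((((bs X.blk j).filter (fun z => X.idx z = s)).card : ℕ) : ℝ) ≤ 2 := by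
    exact_mod_cast X.cls2 j s
  have h3 : (0 : ℝ) ≤ X.Δ := Nat.cast_nonneg _
  nlinarith

theorem T_le (j : V) (s : Fin (X.Δ + 1)) : X.T j s ≤ 12.1 / 10 ^ 6 := by
  unfold DCtx.T
  have h1 := ex_le X j s
  have h2 : (0 : ℝ) ≤ X.Δ := Nat.cast_nonneg _
  have h3 : 3 * X.ex j s / ((X.Δ : ℝ) + 1) ≤ 12 / 10 ^ 6 := by
    rw [div_le_iff₀ (by linarith)]
    linarith
  linarith

theorem sum_ex (j : V) :
    ∑ s, X.ex j s = ∑ z ∈ bs X.blk j, ((nb X.G z \ bs X.blk j).card : ℝ) := by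
  unfold DCtx.ex
  exact Finset.sum_fiberwise (bs X.blk j) X.idx (fun z => ((nb X.G z \ bs X.blk j).card : ℝ))

/-- total weight of positions in one block -/
theorem sumT_block (j : V) (Q : Finset (V × Fin (X.Δ + 1))) (hQ : ∀ p ∈ Q, p.1 = j) :
    ∑ p ∈ Q, X.T p.1 p.2 ≤ 9 / 10 ^ 13 * X.Δ + (Q.card : ℝ) * (1 / 10 ^ 12) := by
  have h1 : ∑ p ∈ Q, X.T p.1 p.2 = 3 / ((X.Δ : ℝ) + 1) * (∑ p ∈ Q, X.ex j p.2) +
      (Q.card : ℝ) * (1 / 10 ^ 12) := by
    rw [Finset.mul_sum, ← nsmul_eq_mul, ← Finset.sum_const, ← Finset.sum_add_distrib]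
    refine Finset.sum_congr rfl fun p hp => ?_
    rw [hQ p hp]
    unfold DCtx.T
    ring
  have h2 : ∑ p ∈ Q, X.ex j p.2 ≤ ∑ s, X.ex j s := by
    have h3 : Set.InjOn Prod.snd (Q : Set (V × Fin (X.Δ + 1))) := by
      intro p hp q hq hpq
      exact Prod.ext ((hQ p hp).trans (hQ q hq).symm) hpq
    rw [← Finset.sum_image (f := fun s => X.ex j s) (g := Prod.snd) h3]
    exact Finset.sum_le_sum_of_subset_of_nonneg (Finset.subset_univ _)
      fun s _ _ => ex_nonneg X j s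
  have h3 : ∑ p ∈ Q, X.ex j p.2 ≤ 3 * (1 / 10 ^ 13) * (X.Δ : ℝ) ^ 2 := by
    rw [sum_ex] at h2
    exact h2.trans (X.dec.edges j)
  have h4 : (0 : ℝ) ≤ X.Δ := Nat.cast_nonneg _
  have h5 : 3 / ((X.Δ : ℝ) + 1) * (∑ p ∈ Q, X.ex j p.2) ≤ 9 / 10 ^ 13 * X.Δ := by
    have h6 : 3 / ((X.Δ : ℝ) + 1) * (∑ p ∈ Q, X.ex j p.2) ≤
        3 / ((X.Δ : ℝ) + 1) * (3 * (1 / 10 ^ 13) * (X.Δ : ℝ) ^ 2) :=
      mul_le_mul_of_nonneg_left h3 (by positivity)
    refine h6.trans ?_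
    rw [div_mul_eq_mul_div, div_le_iff₀ (by linarith)]
    nlinarith
  rw [h1]
  linarith

/-- total weight of arbitrary positions -/
theorem sumT_le (Q : Finset (V × Fin (X.Δ + 1))) :
    ∑ p ∈ Q, X.T p.1 p.2 ≤ (Q.card : ℝ) * (12.1 / 10 ^ 6) := by
  calc ∑ p ∈ Q, X.T p.1 p.2 ≤ ∑ _p ∈ Q, (12.1 / 10 ^ 6 : ℝ) :=
        Finset.sum_le_sum fun p _ => T_le X p.1 p.2
    _ = _ := by rw [Finset.sum_const, nsmul_eq_mul]

end weights

section positions
variable {V : Type u} [Fintype V] (X : DCtx V)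

theorem mem_bs {blk : V → Option V} {j z : V} : z ∈ bs blk j ↔ blk z = some j := by
  unfold bs; simp

theorem mem_nb {G : SimpleGraph V} {v z : V} : z ∈ nb G v ↔ G.Adj v z := by
  unfold nb; simp

theorem mem_dn {G : SimpleGraph V} {blk : V → Option V} {v z : V} :
    z ∈ dn G blk v ↔ z ∈ nb G v ∧ blk z ≠ none := by
  unfold dn; rw [Finset.mem_filter]

theorem pos_fst {z j : V} (h : X.blk z = some j) : (X.pos z).1 = j := by
  unfold DCtx.pos; rw [h]; rfl

theorem pos_eq {z j : V} (h : X.blk z = some j) : X.pos z = (j, X.idx z) := by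
  unfold DCtx.pos; rw [h]; rfl

/-- at most two vertices of a set of block vertices have the same position -/
theorem card_le_two_image (A : Finset V) (hA : ∀ z ∈ A, X.blk z ≠ none) :
    A.card ≤ 2 * (A.image X.pos).card := by
  apply Finset.card_le_mul_card_image
  intro p hp
  obtain ⟨z, hz, hzp⟩ := Finset.mem_image.1 hp
  obtain ⟨j, hj⟩ := Option.ne_none_iff_exists'.1 (hA z hz)
  refine le_trans (Finset.card_le_card ?_) (X.cls2 j (X.idx z))
  intro z' hz'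
  rw [Finset.mem_filter] at hz'
  obtain ⟨j', hj'⟩ := Option.ne_none_iff_exists'.1 (hA z' hz'.1)
  have h1 : X.pos z' = X.pos z := hz'.2.trans hzp.symm
  rw [pos_eq X hj, pos_eq X hj'] at h1
  have h2 := Prod.mk.inj h1
  rw [Finset.mem_filter, mem_bs]
  exact ⟨by rw [hj', h2.1], h2.2⟩

theorem tch_card_le (w : V) : (X.tch w).card ≤ (dn X.G X.blk w).card := Finset.card_image_le

theorem dn_card_le (w : V) : (dn X.G X.blk w).card ≤ X.Δ :=
  (Finset.card_filter_le _ _).trans (X.deg w)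

/-- touched positions of the block `j` -/
theorem tch_filter_fst (w j : V) :
    (X.tch w).filter (fun p => p.1 = j) = (nb X.G w ∩ bs X.blk j).image X.pos := by
  ext p
  rw [Finset.mem_filter, Finset.mem_image]
  unfold DCtx.tch
  rw [Finset.mem_image]
  constructor
  · rintro ⟨⟨z, hz, rfl⟩, h2⟩
    rw [mem_dn] at hz
    obtain ⟨j', hj'⟩ := Option.ne_none_iff_exists'.1 hz.2
    rw [pos_fst X hj'] at h2
    subst h2
    exact ⟨z, Finset.mem_inter.2 ⟨hz.1, mem_bs.2 hj'⟩, rfl⟩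
  · rintro ⟨z, hz, rfl⟩
    rw [Finset.mem_inter, mem_bs] at hz
    refine ⟨⟨z, mem_dn.2 ⟨hz.1, by rw [hz.2]; simp⟩, rfl⟩, pos_fst X hz.2⟩

/-- colours of touched positions -/
theorem image_vc (ω : Cfg V (X.Δ + 1)) (x : V) :
    (dn X.G X.blk x).image (X.vc ω) = cs X.e ω (X.tch x) := by
  unfold cs DCtx.tch
  rw [Finset.image_image]
  rfl

theorem col_inj_block (ω : Cfg V (X.Δ + 1)) {p q : V × Fin (X.Δ + 1)} (h1 : p.1 = q.1)
    (h2 : col X.e ω p = col X.e ω q) : p = q := by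
  obtain ⟨j, s⟩ := p
  obtain ⟨j', s'⟩ := q
  simp only at h1
  subst h1
  unfold col at h2
  have h3 := (ω j).injective (X.einj j h2)
  simp only at h3
  rw [h3]

end positions

section packs
variable {J : Type u} {n : ℕ}

theorem cs_congr (e : J → Fin n → ℕ) {ω ω' : Cfg J n} {Y : Finset (J × Fin n)}
    (h : ∀ p ∈ Y, ω p.1 p.2 = ω' p.1 p.2) : cs e ω Y = cs e ω' Y := by
  unfold cs
  apply Finset.image_congr
  intro p hp
  unfold col
  rw [h p hp]

/-- a package with one event -/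
theorem pack_one [Fintype J] {T : J → Fin n → ℝ} {Bl : Finset J} {W : ℝ} {P : Cfg J n → Prop}
    (Q : Finset (J × Fin n)) (E : Cfg J n → Prop) (hdep : DepOn Q E) (hne : Q.Nonempty)
    (hBl : ∀ p ∈ Q, p.1 ∈ Bl) (hW : pr E * Real.exp (2 * ∑ p ∈ Q, T p.1 p.2) ≤ W)
    (hP : ∀ ω, ¬ E ω → P ω) : Pack T Bl W P := by
  refine ⟨PUnit, inferInstance, fun _ => Q, fun _ => E, fun _ => hdep, fun _ => hne,
    fun _ => hBl, ?_, fun ω h => hP ω (h PUnit.unit)⟩
  rw [Finset.univ_unique, Finset.sum_singleton]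
  exact hW

theorem cs_mono (e : J → Fin n → ℕ) (ω : Cfg J n) {Y Z : Finset (J × Fin n)} (h : Y ⊆ Z) :
    cs e ω Y ⊆ cs e ω Z := Finset.image_subset_image h

end packs

end DAux

end Pool.Agent.Work.MP_db9399_all
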