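import Pool.Agent.Work.MP_db9399_all_helper43.DAux

/-!
# Block DEB: free colours of `N(x)` at `w`
-/

set_option autoImplicit false

namespace Pool.Agent.Work.MP_db9399_all

open Finset Classical

universe u

namespace DEBX

theorem one_sub_ge {a : ℝ} (h0 : 0 ≤ a) (h1 : a ≤ 1 / 2) : (1 / 2 : ℝ) ^ (2 * a) ≤ 1 - a := by
  have h := rpow_one_add_le_one_add_mul_self (s := -(1 / 2)) (by norm_num) (p := 2 * a)
    (by linarith) (by linarith)
  have e1 : (1 : ℝ) + -(1 / 2) = 1 / 2 := by norm_num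
  rw [e1] at h
  linarith

theorem prod_ge {V : Type u} [Fintype V] [Nonempty V] (a : V → ℝ) (h0 : ∀ j, 0 ≤ a j)
    (hs : ∑ j, a j ≤ 1) : ∃ j1, (∀ j, a j ≤ a j1) ∧ (1 - a j1) / 4 ≤ ∏ j, (1 - a j) := by
  obtain ⟨j1, hj1⟩ := Finite.exists_max a
  refine ⟨j1, hj1, ?_⟩
  have hle1 : a j1 ≤ 1 := (Finset.single_le_sum (f := a) (fun j _ => h0 j)
    (Finset.mem_univ j1)).trans hs
  have hhalf : ∀ j ∈ univ.erase j1, a j ≤ 1 / 2 := by
    intro j hj
    have hne := (Finset.mem_erase.1 hj).1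
    have h2 : a j + a j1 ≤ ∑ j, a j := by
      rw [← Finset.sum_pair hne]
      exact Finset.sum_le_sum_of_subset_of_nonneg (Finset.subset_univ _) fun j _ _ => h0 j
    have h3 := hj1 j
    linarith
  have h2 : ∏ j ∈ univ.erase j1, (1 / 2 : ℝ) ^ (2 * a j) ≤ ∏ j ∈ univ.erase j1, (1 - a j) :=
    Finset.prod_le_prod (fun j _ => by positivity) fun j hj => one_sub_ge (h0 j) (hhalf j hj)
  have h3 : ∏ j ∈ univ.erase j1, (1 / 2 : ℝ) ^ (2 * a j) =
      (1 / 2 : ℝ) ^ (∑ j ∈ univ.erase j1, 2 * a j) :=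
    (Real.rpow_sum_of_pos (by norm_num) _ _).symm
  have h4 : ∑ j ∈ univ.erase j1, 2 * a j ≤ 2 := by
    rw [← Finset.mul_sum]
    have h5 : ∑ j ∈ univ.erase j1, a j ≤ ∑ j, a j :=
      Finset.sum_le_sum_of_subset_of_nonneg (Finset.subset_univ _) fun j _ _ => h0 j
    linarith
  have h5 : (1 / 4 : ℝ) ≤ (1 / 2 : ℝ) ^ (∑ j ∈ univ.erase j1, 2 * a j) := by
    have h6 := Real.rpow_le_rpow_of_exponent_ge (x := 1 / 2) (by norm_num) (by norm_num) h4
    have h7 : (1 / 2 : ℝ) ^ (2 : ℝ) = 1 / 4 := by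
      rw [Real.rpow_ofNat]; norm_num
    rw [h7] at h6
    exact h6
  rw [← Finset.mul_prod_erase univ (fun j => 1 - a j) (Finset.mem_univ j1)]
  have h6 : (1 / 4 : ℝ) ≤ ∏ j ∈ univ.erase j1, (1 - a j) := by
    rw [h3] at h2; linarith
  have h7 : 0 ≤ 1 - a j1 := by linarith
  nlinarith

end DEBX

open DAux DEBX in
theorem stmt_DEB (hPE2 : Stmt_PE2.{u}) : Stmt_DEB.{u} := by
  refine ⟨10 ^ 30, ?_⟩
  intro V _ X x w i hΔ hx hw hxi hwi
  have : Nonempty V := ⟨x⟩
  set δ : ℝ := (X.Δ : ℝ) with hδ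
  have hδ30 : (10 : ℝ) ^ 30 ≤ δ := by rw [hδ]; exact_mod_cast hΔ
  have hδ0 : 0 < δ := by linarith [show (0 : ℝ) < 10 ^ 30 by positivity]
  set Ax := (X.tch x).filter (fun p => p.1 = i) with hAx
  set Aw := (X.tch w).filter (fun p => p.1 = i) with hAw
  have hAxc : δ / 400 ≤ (Ax.card : ℝ) := by
    have h1 := card_le_two_image X (nb X.G x ∩ bs X.blk i) (fun z hz => by
      have := mem_bs.1 (Finset.mem_inter.1 hz).2
      rw [this]; simp)
    rw [← tch_filter_fst X x i, ← hAx] at h1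
    have h2 : ((nb X.G x ∩ bs X.blk i).card : ℝ) ≤ 2 * (Ax.card : ℝ) := by exact_mod_cast h1
    linarith
  have hAwc : (Aw.card : ℝ) ≤ δ / 1000 := by
    have h1 : Aw.card ≤ (nb X.G w ∩ bs X.blk i).card := by
      rw [hAw, tch_filter_fst X w i]; exact Finset.card_image_le
    have h2 : (Aw.card : ℝ) ≤ ((nb X.G w ∩ bs X.blk i).card : ℝ) := by exact_mod_cast h1
    linarith
  have hA : 3 / 2000 * δ ≤ ((Ax \ Aw).card : ℝ) := by
    have h1 : Ax.card ≤ (Ax \ Aw).card + Aw.card := by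
      have := Finset.le_card_sdiff Aw Ax
      omega
    have h2 : (Ax.card : ℝ) ≤ ((Ax \ Aw).card : ℝ) + (Aw.card : ℝ) := by exact_mod_cast h1
    linarith
  obtain ⟨Z, hZsub, hZc⟩ := Finset.exists_subset_card_eq (Nat.ceil_le.2 hA)
  have hZ1 : 3 / 2000 * δ ≤ (Z.card : ℝ) := by rw [hZc]; exact Nat.le_ceil _
  have hZ2 : (Z.card : ℝ) ≤ 3 / 2000 * δ + 1 := by
    rw [hZc]; exact (Nat.ceil_lt_add_one (by positivity)).le
  have hZx : ∀ p ∈ Z, p ∈ X.tch x ∧ p.1 = i ∧ p ∉ X.tch w := by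
    intro p hp
    have h1 := Finset.mem_sdiff.1 (hZsub hp)
    have h2 := Finset.mem_filter.1 h1.1
    exact ⟨h2.1, h2.2, fun h3 => h1.2 (Finset.mem_filter.2 ⟨h3, h2.2⟩)⟩
  set Y := (X.tch w).filter (fun p => p.1 ≠ i) with hY
  have hYc : (Y.card : ℝ) ≤ δ := by
    have h1 : Y.card ≤ X.Δ :=
      (Finset.card_filter_le _ _).trans ((tch_card_le X w).trans (dn_card_le X w))
    rw [hδ]; exact_mod_cast h1
  set g : ℕ := ⌈δ / 10 ^ 29⌉₊ with hg
  have hg1 : δ / 10 ^ 29 ≤ (g : ℝ) := Nat.le_ceil _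
  have hg2 : (g : ℝ) ≤ δ / 10 ^ 29 + 1 := (Nat.ceil_lt_add_one (by positivity)).le
  have hZne : Z.Nonempty := by
    rw [← Finset.card_pos]
    have : (0 : ℝ) < (Z.card : ℝ) := lt_of_lt_of_le (by positivity) hZ1
    exact_mod_cast this
  refine pack_one (Z ∪ Y) (fun ω => (cs X.e ω Z \ cs X.e ω Y).card < g) ?_ ?_ ?_ ?_ ?_
  · intro ω ω' h
    have h1 := cs_congr X.e (Y := Z) fun p hp => h p (Finset.mem_union_left _ hp)
    have h2 := cs_congr X.e (Y := Y) fun p hp => h p (Finset.mem_union_right _ hp)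
    simp only [h1, h2]
  · exact hZne.mono Finset.subset_union_left
  · intro p hp
    rcases Finset.mem_union.1 hp with h | h
    · exact Finset.mem_union_left _ (Finset.mem_image_of_mem _ (hZx p h).1)
    · exact Finset.mem_union_right _ (Finset.mem_image_of_mem _ (Finset.mem_filter.1 h).1)
  · -- the weight
    set n : ℝ := (X.Δ : ℝ) + 1 with hn
    have hn0 : 0 < n := by rw [hn]; linarith
    have hpe := hPE2 V (X.Δ + 1) X.e i Z Y g X.einj (fun p hp => (hZx p hp).2.1)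
      (fun p hp => (Finset.mem_filter.1 hp).2)
    have hcast : (((X.Δ + 1 : ℕ) : ℕ) : ℝ) = n := by rw [hn]; push_cast; ring
    rw [hcast] at hpe
    obtain ⟨j1, hj1, hprod⟩ := prod_ge
      (fun j => ((Y.filter (fun p => p.1 = j)).card : ℝ) / n) (fun j => by positivity) (by
        rw [← Finset.sum_div, div_le_one hn0]
        have h1 : ∑ j, ((Y.filter (fun p => p.1 = j)).card : ℝ) = (Y.card : ℝ) := by
          have h2 := Finset.card_eq_sum_card_fiberwise (s := Y) (t := univ) (f := Prod.fst)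
            (fun _ _ => Finset.mem_univ _)
          rw [h2]; push_cast; rfl
        rw [h1, hn]; linarith)
    set y1 : ℝ := ((Y.filter (fun p => p.1 = j1)).card : ℝ) with hy1
    set v : ℝ := ∏ j, (1 - ((Y.filter (fun p => p.1 = j)).card : ℝ) / n) with hv
    have hy1le : y1 ≤ (1 - 1 / 10 ^ 6 / 2) * δ := by
      have h1 : (Y.filter (fun p => p.1 = j1)).card ≤ (nb X.G w ∩ bs X.blk j1).card := by
        refine le_trans (Finset.card_le_card ?_)
          (Finset.card_image_le (s := nb X.G w ∩ bs X.blk j1) (f := X.pos))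
        rw [← tch_filter_fst X w j1]
        exact Finset.filter_subset_filter _ (Finset.filter_subset _ _)
      have h2 : w ∉ bs X.blk j1 := by
        rw [mem_bs, hw]; simp
      have h3 := X.dec.out j1 w h2
      have h4 : y1 ≤ ((nb X.G w ∩ bs X.blk j1).card : ℝ) := by rw [hy1]; exact_mod_cast h1
      exact h4.trans h3
    have hy10 : 0 ≤ y1 := by rw [hy1]; positivity
    set t : ℝ := 1 - y1 / n with ht
    have hnt : n * t = n - y1 := by rw [ht]; field_simp
    have ht1 : 5 / 10 ^ 7 ≤ t := by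
      rw [ht, le_sub_iff_add_le, ← le_sub_iff_add_le', div_le_iff₀ hn0]
      rw [hn]
      have h5 : (1 - 1 / 10 ^ 6 / 2) * δ ≤ (1 - 5 / 10 ^ 7) * ((X.Δ : ℝ) + 1) := by
        rw [← hδ]; linarith
      linarith
    have ht2 : t ≤ 1 := by
      rw [ht]
      have : 0 ≤ y1 / n := by positivity
      linarith
    have hvt : t / 4 ≤ v := hprod
    -- sum of the weights
    have hsum : ∑ p ∈ Z ∪ Y, X.T p.1 p.2 ≤ (9 / 10 ^ 13 * δ + (Z.card : ℝ) * (1 / 10 ^ 12)) +
        ((9 / 10 ^ 13 * δ + y1 * (1 / 10 ^ 12)) + ((Y.card : ℝ) - y1) * (12.1 / 10 ^ 6)) := by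
      have h1 : ∑ p ∈ Z ∪ Y, X.T p.1 p.2 ≤ ∑ p ∈ Z, X.T p.1 p.2 + ∑ p ∈ Y, X.T p.1 p.2 := by
        have h2 := Finset.sum_union_inter (s₁ := Z) (s₂ := Y) (f := fun p => X.T p.1 p.2)
        have h3 : 0 ≤ ∑ p ∈ Z ∩ Y, X.T p.1 p.2 :=
          Finset.sum_nonneg fun p _ => T_nonneg X p.1 p.2
        linarith
      have h2 := sumT_block X i Z (fun p hp => (hZx p hp).2.1)
      have h3 := sumT_block X j1 (Y.filter (fun p => p.1 = j1))
        (fun p hp => (Finset.mem_filter.1 hp).2)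
      have h4 := sumT_le X (Y.filter (fun p => ¬ p.1 = j1))
      have h5 := Finset.sum_filter_add_sum_filter_not Y (fun p => p.1 = j1)
        (fun p => X.T p.1 p.2)
      have h6 := Finset.card_filter_add_card_filter_not (s := Y) (fun p => p.1 = j1)
      have h7 : ((Y.filter (fun p => ¬ p.1 = j1)).card : ℝ) = (Y.card : ℝ) - y1 := by
        rw [hy1, ← h6]; push_cast; ring
      rw [h7] at h4
      linarith
    have hE1 : pr (fun ω : Cfg V (X.Δ + 1) => (cs X.e ω Z \ cs X.e ω Y).card < g) ≤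
        Real.exp ((g : ℝ) - v / 2 * Z.card) := by
      refine hpe.trans ?_
      have h1 : (2 : ℝ) ^ g ≤ Real.exp (g : ℝ) := by
        have h2 : (2 : ℝ) ≤ Real.exp 1 := by
          have := Real.add_one_le_exp (1 : ℝ)
          linarith
        calc (2 : ℝ) ^ g ≤ (Real.exp 1) ^ g := pow_le_pow_left₀ (by norm_num) h2 g
          _ = Real.exp (g : ℝ) := by rw [← Real.exp_nat_mul]; simp
      have hv1 : v ≤ 1 := by
        rw [hv]
        apply Finset.prod_le_one
        · intro j _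
          have h2 := hj1 j
          have h3 : y1 / n ≤ 1 := by
            have : t = 1 - y1 / n := ht
            linarith
          linarith
        · intro j _
          have : 0 ≤ ((Y.filter (fun p => p.1 = j)).card : ℝ) / n := by positivity
          linarith
      have h2 : (1 - v / 2) ^ Z.card ≤ Real.exp (-(v / 2 * Z.card)) := by
        have h3 : 1 - v / 2 ≤ Real.exp (-(v / 2)) := by
          have := Real.add_one_le_exp (-(v / 2))
          linarith
        calc (1 - v / 2) ^ Z.card ≤ (Real.exp (-(v / 2))) ^ Z.card :=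
              pow_le_pow_left₀ (by linarith) h3 _
          _ = _ := by rw [← Real.exp_nat_mul]; congr 1; ring
      have h4 : 0 ≤ (1 - v / 2) ^ Z.card := pow_nonneg (by linarith) _
      calc (2 : ℝ) ^ g * (1 - v / 2) ^ Z.card ≤
            Real.exp (g : ℝ) * Real.exp (-(v / 2 * Z.card)) :=
            mul_le_mul h1 h2 h4 (Real.exp_pos _).le
        _ = _ := by rw [← Real.exp_add]; congr 1
    calc pr (fun ω : Cfg V (X.Δ + 1) => (cs X.e ω Z \ cs X.e ω Y).card < g) *
          Real.exp (2 * ∑ p ∈ Z ∪ Y, X.T p.1 p.2) ≤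
          Real.exp ((g : ℝ) - v / 2 * Z.card) * Real.exp (2 * ∑ p ∈ Z ∪ Y, X.T p.1 p.2) :=
          mul_le_mul_of_nonneg_right hE1 (Real.exp_pos _).le
      _ = Real.exp ((g : ℝ) - v / 2 * Z.card + 2 * ∑ p ∈ Z ∪ Y, X.T p.1 p.2) := by
          rw [← Real.exp_add]
      _ ≤ Real.exp (-(X.Δ : ℝ) / 10 ^ 28) := by
          apply Real.exp_le_exp.2
          have k1 : t / 8 * (3 / 2000 * δ) ≤ v / 2 * Z.card :=
            mul_le_mul (by linarith) hZ1 (by positivity) (by linarith)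
          have k2 : (Y.card : ℝ) - y1 ≤ n * t := by rw [hnt, hn]; linarith
          have k3 : n ≤ 1.0001 * δ := by rw [hn, ← hδ]; norm_num at hδ30 ⊢; linarith
          have k4 : n * t ≤ 1.0001 * δ * t := mul_le_mul_of_nonneg_right k3 (by linarith)
          have k5 : 5 / 10 ^ 7 * δ ≤ t * δ := mul_le_mul_of_nonneg_right ht1 hδ0.le
          have k6 : y1 ≤ δ := by
            have : (1 - 1 / 10 ^ 6 / 2) * δ ≤ δ := by norm_num; linarith
            linarith
          rw [← hδ]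
          norm_num at hδ30 hsum hg2 k1 k2 k4 k5 hZ2 ⊢
          linarith
  · -- avoidance
    intro ω hω
    push Not at hω
    rw [image_vc, image_vc]
    have h1 : cs X.e ω Z \ cs X.e ω Y ⊆ cs X.e ω (X.tch x) \ cs X.e ω (X.tch w) := by
      intro a ha
      rw [Finset.mem_sdiff] at ha ⊢
      refine ⟨cs_mono X.e ω (fun p hp => (hZx p hp).1) ha.1, fun h2 => ?_⟩
      obtain ⟨p, hp, hpa⟩ := Finset.mem_image.1 ha.1
      obtain ⟨q, hq, hqa⟩ := Finset.mem_image.1 h2
      by_cases hqi : q.1 = i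
      · have h3 : p = q := col_inj_block X ω ((hZx p hp).2.1.trans hqi.symm) (hpa.trans hqa.symm)
        exact (hZx p hp).2.2 (h3 ▸ hq)
      · exact ha.2 (Finset.mem_image.2 ⟨q, Finset.mem_filter.2 ⟨hq, hqi⟩, hqa⟩)
    have h2 : g ≤ (cs X.e ω (X.tch x) \ cs X.e ω (X.tch w)).card :=
      hω.trans (Finset.card_le_card h1)
    have h3 : (g : ℝ) ≤ ((cs X.e ω (X.tch x) \ cs X.e ω (X.tch w)).card : ℝ) := by
      exact_mod_cast h2
    linarith

end Pool.Agent.Work.MP_db9399_all
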