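import Pool.Agent.Work.MP_db9399_all_helper43.DAux

/-!
# Block DES: free colours of `N(x)` at a vertex `w` with few block neighbours
-/

set_option autoImplicit false

namespace Pool.Agent.Work.MP_db9399_all

open Finset Classical

universe u

namespace DESX

section
variable {P : Type u} [Fintype P]

/-- functions which map `M` to `t` and are the identity elsewhere -/
noncomputable def Fn (t : Finset P) (M : Finset P) : Finset (P → P) :=
  Fintype.piFinset (fun p => if p ∈ M then t else {p})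

theorem card_Fn (t M : Finset P) : (Fn t M).card = t.card ^ M.card := by
  unfold Fn
  rw [Fintype.card_piFinset]
  have h1 : ∀ p : P, (if p ∈ M then t else {p}).card = if p ∈ M then t.card else 1 := by
    intro p
    by_cases h : p ∈ M
    · simp only [h, if_true]
    · simp only [h, if_false, Finset.card_singleton]
  rw [Finset.prod_congr rfl fun p _ => h1 p, Finset.prod_ite_mem, Finset.univ_inter,
    Finset.prod_const]

/-- the index set -/
noncomputable def Ix (Z t : Finset P) (m : ℕ) : Finset (Finset P × (P → P)) :=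
  (Z.powersetCard m).biUnion (fun M => (Fn t M).image (fun g => (M, g)))

theorem mem_Ix {Z t : Finset P} {m : ℕ} {k : Finset P × (P → P)} (hk : k ∈ Ix Z t m) :
    k.1 ⊆ Z ∧ k.1.card = m ∧ ∀ p ∈ k.1, k.2 p ∈ t := by
  unfold Ix at hk
  rw [Finset.mem_biUnion] at hk
  obtain ⟨M, hM, hk⟩ := hk
  obtain ⟨g, hg, rfl⟩ := Finset.mem_image.1 hk
  rw [Finset.mem_powersetCard] at hM
  refine ⟨hM.1, hM.2, fun p hp => ?_⟩
  unfold Fn at hg
  rw [Fintype.mem_piFinset] at hg
  have h1 := hg p
  have hp' : p ∈ M := hp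
  rw [if_pos hp'] at h1
  exact h1

theorem mk_mem_Ix {Z t : Finset P} {m : ℕ} {M : Finset P} {g : P → P} (h1 : M ⊆ Z)
    (h2 : M.card = m) (h3 : ∀ p ∈ M, g p ∈ t) (h4 : ∀ p, p ∉ M → g p = p) :
    (M, g) ∈ Ix Z t m := by
  unfold Ix
  rw [Finset.mem_biUnion]
  refine ⟨M, Finset.mem_powersetCard.2 ⟨h1, h2⟩, Finset.mem_image.2 ⟨g, ?_, rfl⟩⟩
  unfold Fn
  rw [Fintype.mem_piFinset]
  intro p
  by_cases hp : p ∈ M
  · rw [if_pos hp]; exact h3 p hp
  · rw [if_neg hp, Finset.mem_singleton]; exact h4 p hp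

theorem card_Ix {Z t : Finset P} {m : ℕ} (hm : Z.card ≤ 2 * m) :
    (Ix Z t m).card ≤ 4 ^ m * t.card ^ m := by
  unfold Ix
  refine Finset.card_biUnion_le.trans ?_
  have h1 : ∀ M ∈ Z.powersetCard m, ((Fn t M).image (fun g => (M, g))).card ≤ t.card ^ m := by
    intro M hM
    refine Finset.card_image_le.trans ?_
    rw [card_Fn, (Finset.mem_powersetCard.1 hM).2]
  refine (Finset.sum_le_sum h1).trans ?_
  rw [Finset.sum_const, smul_eq_mul, Finset.card_powersetCard]
  refine Nat.mul_le_mul_right _ ?_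
  refine (Nat.choose_le_two_pow _ _).trans ?_
  calc 2 ^ Z.card ≤ 2 ^ (2 * m) := Nat.pow_le_pow_right (by norm_num) hm
    _ = 4 ^ m := by rw [pow_mul]; norm_num

end

end DESX

open DAux DESX in
theorem stmt_DES (hPE1 : Stmt_PE1.{u}) : Stmt_DES.{u} := by
  refine ⟨10 ^ 30, ?_⟩
  intro V _ X x w hΔ hx hw hdw hxw
  set δ : ℝ := (X.Δ : ℝ) with hδ
  have hδ30 : (10 : ℝ) ^ 30 ≤ δ := by rw [hδ]; exact_mod_cast hΔ
  have hδ0 : 0 < δ := by linarith [show (0 : ℝ) < 10 ^ 30 by positivity]
  obtain ⟨Z, hZsub, hZc⟩ := Finset.exists_subset_card_eq (Nat.ceil_le.2 hxw)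
  have hZ1 : δ / (16 * 10 ^ 26) ≤ (Z.card : ℝ) := by rw [hZc]; exact Nat.le_ceil _
  have hZ2 : (Z.card : ℝ) ≤ δ / (16 * 10 ^ 26) + 1 := by
    rw [hZc]; exact (Nat.ceil_lt_add_one (by positivity)).le
  have hZx : ∀ p ∈ Z, p ∈ X.tch x ∧ p ∉ X.tch w := fun p hp => Finset.mem_sdiff.1 (hZsub hp)
  obtain ⟨m, hm1, hm2⟩ : ∃ m, Z.card ≤ 2 * m ∧ 2 * m ≤ Z.card + 1 :=
    ⟨(Z.card + 1) / 2, by omega, by omega⟩
  have hm1' : (Z.card : ℝ) ≤ 2 * m := by exact_mod_cast hm1
  have hm2' : 2 * (m : ℝ) ≤ Z.card + 1 := by exact_mod_cast hm2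
  have hm0 : 0 < m := by
    have h1 : (0 : ℝ) < Z.card := lt_of_lt_of_le (by positivity) hZ1
    have h2 : (0 : ℝ) < m := by linarith
    exact_mod_cast h2
  set S := Ix Z (X.tch w) m with hS
  set t : ℝ := ((X.tch w).card : ℝ) with ht
  have ht0 : 0 ≤ t := by rw [ht]; positivity
  have ht1 : t ≤ δ / 100 := by
    have h1 : (X.tch w).card ≤ (dn X.G X.blk w).card := tch_card_le X w
    have h2 : t ≤ ((dn X.G X.blk w).card : ℝ) := by rw [ht]; exact_mod_cast h1
    linarith
  have hScard : (S.card : ℝ) ≤ 4 ^ m * t ^ m := by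
    have h1 : S.card ≤ 4 ^ m * (X.tch w).card ^ m := card_Ix hm1
    rw [ht]; exact_mod_cast h1
  refine ⟨{k // k ∈ S}, inferInstance, fun k => k.1.1 ∪ k.1.1.image k.1.2,
    fun k ω => ∀ p ∈ k.1.1, col X.e ω p = col X.e ω (k.1.2 p), ?_, ?_, ?_, ?_, ?_⟩
  · intro k ω ω' h
    have h1 : ∀ p ∈ k.1.1 ∪ k.1.1.image k.1.2, col X.e ω p = col X.e ω' p := by
      intro p hp
      unfold col
      rw [h p hp]
    apply propext
    refine forall_congr' fun p => forall_congr' fun hp => ?_
    rw [h1 p (Finset.mem_union_left _ hp),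
      h1 (k.1.2 p) (Finset.mem_union_right _ (Finset.mem_image_of_mem _ hp))]
  · intro k
    have h1 := (mem_Ix k.2).2.1
    refine Finset.Nonempty.mono Finset.subset_union_left ?_
    rw [← Finset.card_pos, h1]
    exact hm0
  · intro k p hp
    obtain ⟨h1, _, h3⟩ := mem_Ix k.2
    rcases Finset.mem_union.1 hp with h | h
    · exact Finset.mem_union_left _ (Finset.mem_image_of_mem _ (hZx p (h1 h)).1)
    · obtain ⟨q, hq, rfl⟩ := Finset.mem_image.1 h
      exact Finset.mem_union_right _ (Finset.mem_image_of_mem _ (h3 q hq))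
  · -- weights
    have hmδ : 2 * (m : ℝ) ≤ δ / 1000 := by
      have : δ / (16 * 10 ^ 26) + 1 + 1 ≤ δ / 1000 := by
        norm_num at hδ30 ⊢
        linarith
      linarith
    have hn1 : 999 / 1000 * δ ≤ ((X.Δ + 1 : ℕ) : ℝ) - 2 * m := by
      push_cast
      linarith
    have hn0 : 0 < ((X.Δ + 1 : ℕ) : ℝ) - 2 * m := lt_of_lt_of_le (by positivity) hn1
    set c : ℝ := (1 / (((X.Δ + 1 : ℕ) : ℝ) - 2 * m)) ^ m * Real.exp (m : ℝ) with hc
    have hterm : ∀ k : {k // k ∈ S},
        pr (fun ω : Cfg V (X.Δ + 1) => ∀ p ∈ k.1.1, col X.e ω p = col X.e ω (k.1.2 p)) *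
          Real.exp (2 * ∑ p ∈ k.1.1 ∪ k.1.1.image k.1.2, X.T p.1 p.2) ≤ c := by
      intro k
      obtain ⟨h1, h2, h3⟩ := mem_Ix k.2
      have h4 := hPE1 V (X.Δ + 1) X.e k.1.1 k.1.2 X.einj
        (fun p hp hcon => (hZx _ (h1 hcon)).2 (h3 p hp)) (by
          rw [h2]
          have : 2 * (m : ℝ) < ((X.Δ + 1 : ℕ) : ℝ) := by linarith
          exact_mod_cast this)
      rw [h2] at h4
      have h5 := sumT_le X (k.1.1 ∪ k.1.1.image k.1.2)
      have h6 : ((k.1.1 ∪ k.1.1.image k.1.2).card : ℝ) ≤ 2 * m := by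
        have h7 : (k.1.1 ∪ k.1.1.image k.1.2).card ≤ m + m :=
          (Finset.card_union_le _ _).trans (by
            have := Finset.card_image_le (s := k.1.1) (f := k.1.2)
            omega)
        have h8 : ((k.1.1 ∪ k.1.1.image k.1.2).card : ℝ) ≤ m + m := by exact_mod_cast h7
        linarith
      have hm0' : (0 : ℝ) < m := by exact_mod_cast hm0
      have h7 : 2 * ∑ p ∈ k.1.1 ∪ k.1.1.image k.1.2, X.T p.1 p.2 ≤ (m : ℝ) := by
        norm_num at h5 ⊢
        linarith
      exact mul_le_mul h4 (Real.exp_le_exp.2 h7) (Real.exp_pos _).le (by positivity)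
    refine (Finset.sum_le_sum fun k _ => hterm k).trans ?_
    rw [Finset.sum_const, nsmul_eq_mul, Finset.card_univ, Fintype.card_coe]
    have hc0 : 0 ≤ c := by rw [hc]; positivity
    refine (mul_le_mul_of_nonneg_right hScard hc0).trans ?_
    have h1 : 4 ^ m * t ^ m * c =
        (4 * t * (1 / (((X.Δ + 1 : ℕ) : ℝ) - 2 * m)) * Real.exp 1) ^ m := by
      rw [hc, mul_pow, mul_pow, mul_pow, ← Real.exp_nat_mul]
      simp only [mul_one]
      ring
    rw [h1]
    have h2 : 4 * t * (1 / (((X.Δ + 1 : ℕ) : ℝ) - 2 * m)) ≤ 4 / 99 := by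
      rw [mul_one_div, div_le_div_iff₀ hn0 (by norm_num)]
      linarith
    have h3 : 4 * t * (1 / (((X.Δ + 1 : ℕ) : ℝ) - 2 * m)) * Real.exp 1 ≤ Real.exp (-2) := by
      have h4 : 4 / 99 * Real.exp 1 ≤ Real.exp (-2) := by
        have h5 : Real.exp (-2) = Real.exp 1 / Real.exp 3 := by
          rw [← Real.exp_sub]; norm_num
        have h6 : Real.exp 3 ≤ 99 / 4 := by
          have h7 : Real.exp 3 = Real.exp 1 ^ 3 := by rw [← Real.exp_nat_mul]; norm_num
          rw [h7]
          have h8 : Real.exp 1 ≤ 2.72 := by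
            have := Real.exp_one_lt_d9
            norm_num at this ⊢
            linarith
          calc Real.exp 1 ^ 3 ≤ 2.72 ^ 3 := pow_le_pow_left₀ (Real.exp_pos _).le h8 3
            _ ≤ 99 / 4 := by norm_num
        rw [h5, le_div_iff₀ (Real.exp_pos _)]
        have h7 : 0 < Real.exp 1 := Real.exp_pos _
        nlinarith
      exact (mul_le_mul_of_nonneg_right h2 (Real.exp_pos _).le).trans h4
    have h4 : 0 ≤ 4 * t * (1 / (((X.Δ + 1 : ℕ) : ℝ) - 2 * m)) * Real.exp 1 := by positivity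
    calc (4 * t * (1 / (((X.Δ + 1 : ℕ) : ℝ) - 2 * m)) * Real.exp 1) ^ m ≤ Real.exp (-2) ^ m :=
          pow_le_pow_left₀ h4 h3 m
      _ = Real.exp ((m : ℝ) * (-2)) := by rw [← Real.exp_nat_mul]
      _ ≤ Real.exp (-(X.Δ : ℝ) / 10 ^ 28) := by
          apply Real.exp_le_exp.2
          rw [← hδ]
          norm_num at hZ1 hm1' ⊢
          linarith
  · -- avoidance
    intro ω hω
    rw [image_vc, image_vc]
    set Bk := Z.filter (fun p => col X.e ω p ∈ cs X.e ω (X.tch w)) with hBk
    have hBkc : Bk.card < m := by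
      by_contra hcon
      push Not at hcon
      obtain ⟨M, hMsub, hMc⟩ := Finset.exists_subset_card_eq hcon
      have hM : ∀ p ∈ M, ∃ q ∈ X.tch w, col X.e ω q = col X.e ω p := by
        intro p hp
        have h1 := (Finset.mem_filter.1 (hMsub hp)).2
        exact Finset.mem_image.1 h1
      choose! g hg1 hg2 using hM
      have hk : (M, fun p => if p ∈ M then g p else p) ∈ S := by
        refine mk_mem_Ix (fun p hp => (Finset.mem_filter.1 (hMsub hp)).1) hMc ?_ ?_
        · intro p hp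
          rw [if_pos hp]
          exact hg1 p hp
        · intro p hp
          rw [if_neg hp]
      refine hω ⟨_, hk⟩ ?_
      intro p hp
      have hp' : p ∈ M := hp
      simp only [hp', if_true]
      exact (hg2 p hp').symm
    set U := Z \ Bk with hU
    have hUc : (Z.card : ℝ) / 2 ≤ (U.card : ℝ) := by
      have h1 : Z.card ≤ U.card + Bk.card := by
        have := Finset.le_card_sdiff Bk Z
        rw [← hU] at this
        omega
      have h2 : Z.card ≤ 2 * U.card := by omega
      have h3 : (Z.card : ℝ) ≤ 2 * U.card := by exact_mod_cast h2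
      linarith
    have hUx : U ⊆ X.tch x := fun p hp => (hZx p (Finset.mem_sdiff.1 hp).1).1
    by_cases hcU : (Z.card : ℝ) / 4 ≤ ((cs X.e ω U).card : ℝ)
    · right
      have h1 : cs X.e ω U ⊆ cs X.e ω (X.tch x) \ cs X.e ω (X.tch w) := by
        intro a ha
        rw [Finset.mem_sdiff]
        refine ⟨cs_mono X.e ω hUx ha, fun h2 => ?_⟩
        obtain ⟨p, hp, rfl⟩ := Finset.mem_image.1 ha
        rw [hU, Finset.mem_sdiff] at hp
        exact hp.2 (Finset.mem_filter.2 ⟨hp.1, h2⟩)
      have h2 : ((cs X.e ω U).card : ℝ) ≤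
          ((cs X.e ω (X.tch x) \ cs X.e ω (X.tch w)).card : ℝ) := by
        exact_mod_cast Finset.card_le_card h1
      refine le_trans ?_ h2
      refine le_trans ?_ hcU
      norm_num at hZ1 ⊢
      linarith
    · left
      push Not at hcU
      have h1 : (cs X.e ω (X.tch x)).card ≤ (cs X.e ω U).card + (X.tch x \ U).card := by
        have h2 : cs X.e ω (X.tch x) = cs X.e ω U ∪ cs X.e ω (X.tch x \ U) := by
          unfold cs
          rw [← Finset.image_union, Finset.union_sdiff_of_subset hUx]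
        rw [h2]
        refine (Finset.card_union_le _ _).trans (Nat.add_le_add_left ?_ _)
        exact Finset.card_image_le
      have h2 : (X.tch x \ U).card + U.card = (X.tch x).card :=
        Finset.card_sdiff_add_card_eq_card hUx
      have h3 : (X.tch x).card ≤ (dn X.G X.blk x).card := tch_card_le X x
      have h4 : ((cs X.e ω (X.tch x)).card : ℝ) + U.card ≤
          ((cs X.e ω U).card : ℝ) + (dn X.G X.blk x).card := by
        have h5 : (cs X.e ω (X.tch x)).card + U.card ≤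
            (cs X.e ω U).card + (dn X.G X.blk x).card := by omega
        exact_mod_cast h5
      have h5 : δ / 10 ^ 29 ≤ (Z.card : ℝ) / 4 := by
        norm_num at hZ1 ⊢
        linarith
      linarith

end Pool.Agent.Work.MP_db9399_all
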